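import Pool.Agent.U280.Radon.Main

/-!
# The affine hull of the Radon and primitive Radon vectors

The definitions (`GenPos`, `Meet`, `IsMin`, `radonNum`, `primNum`, `V`, `coord`, `System`) are in
`Pool.Agent.U280.Radon.Defs`.
-/

set_option autoImplicit false

namespace Pool.Agent.Results.MP_620441_co.AffineHull

open Pool.Agent.U280.Radon

/-- For all `d ≥ 1` and `s ≥ d + 2`, the affine hull of the set `V(s, d)` of the vectors
`(r(S), P(S))`, where `S` runs over the `s`-point sets in general position in `ℝ^d`, is the
solution set of the explicit linear system `System d s`. -/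
theorem result (d s : ℕ) (hd : 1 ≤ d) (hs : d + 2 ≤ s) :
    (affineSpan ℝ (V d s) : Set ((Fin (s / 2) → ℝ) × (Fin (d / 2 + 1) → ℝ))) =
      {v | System d s (coord v.1) (coord v.2)} :=
  affineSpan_V hd hs

end Pool.Agent.Results.MP_620441_co.AffineHull
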